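import Pool.Agent.Helper5.FS.Stmts

set_option autoImplicit false

namespace Pool.Agent.Helper5.FS

theorem st_NUM : ST_NUM := by
  intro n m q hq hn h
  have hn' : (0:ℝ) < n := by exact_mod_cast hn
  have hq' : (0:ℝ) < q := by exact_mod_cast hq
  have hm0 : 0 < m := by
    rcases Nat.eq_zero_or_pos m with h0 | h0
    · exfalso
      rw [h0] at h
      simp only [Nat.cast_zero, zero_mul] at h
      linarith
    · exact h0
  have hm' : (0:ℝ) < m := by exact_mod_cast hm0
  set L := Real.log ((n:ℝ)/q) with hL
  have hLpos : 0 < L := by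
    by_contra hc
    push Not at hc
    have : (m:ℝ) * L ≤ 0 := mul_nonpos_of_nonneg_of_nonpos hm'.le hc
    linarith
  refine ⟨2 * n / m, ?_, ?_⟩
  · have := Nat.lt_mul_div_succ (2 * n) hm0
    rw [mul_comm m] at this
    exact this.le
  · set s := 2 * n / m with hs
    have hs1 : (s:ℝ) ≤ 2 * n / m := by
      have := @Nat.cast_div_le ℝ _ _ _ (2 * n) m
      rw [← hs] at this
      push_cast at this
      exact this
    have hx : (n:ℝ) / m ≤ L / 5 := by
      rw [div_le_div_iff₀ hm' (by norm_num)]
      linarith
    have hs2 : (s:ℝ) ≤ 2 * (L / 5) := by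
      calc (s:ℝ) ≤ 2 * n / m := hs1
        _ = 2 * (n / m) := by ring
        _ ≤ 2 * (L / 5) := by linarith
    have hlog : Real.log 2 < 0.6931471808 := Real.log_two_lt_d9
    have hlog0 : 0 < Real.log 2 := Real.log_pos (by norm_num)
    have hE : (2:ℝ) ^ (2 * s) ≤ Real.exp (0.5545185 * L) := by
      have e1 : (2:ℝ) ^ (2 * s) = Real.exp (((2 * s : ℕ) : ℝ) * Real.log 2) := by
        rw [Real.exp_nat_mul, Real.exp_log (by norm_num)]
      rw [e1]
      apply Real.exp_le_exp.2
      push_cast
      have h3 : 2 * (s:ℝ) * Real.log 2 ≤ 2 * (2 * (L / 5)) * Real.log 2 := by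
        apply mul_le_mul_of_nonneg_right _ hlog0.le
        linarith
      have h4 : 2 * (2 * (L / 5)) * Real.log 2 ≤ 2 * (2 * (L / 5)) * 0.6931471808 := by
        apply mul_le_mul_of_nonneg_left hlog.le
        positivity
      linarith
    have hE1 : 1 ≤ Real.exp (0.5545185 * L) := Real.one_le_exp (by positivity)
    have hqn : (q:ℝ) = n * Real.exp (-L) := by
      rw [Real.exp_neg, hL, Real.exp_log (by positivity)]
      field_simp
    have hkey : 6 * L ≤ 5 * Real.exp (0.4454815 * L) := by
      have e0 : 2.7182818283 < Real.exp 1 := Real.exp_one_gt_d9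
      have e1 : Real.exp (0.4454815 * L) = Real.exp 1 * Real.exp (0.4454815 * L - 1) := by
        rw [← Real.exp_add]
        congr 1
        ring
      have e2 : 0.4454815 * L ≤ Real.exp (0.4454815 * L - 1) := by
        have := Real.add_one_le_exp (0.4454815 * L - 1)
        linarith
      have e3 : 2.7182818283 * (0.4454815 * L) ≤
          Real.exp 1 * Real.exp (0.4454815 * L - 1) := by
        apply mul_le_mul e0.le e2 (by positivity) (Real.exp_pos _).le
      rw [e1]
      linarith
    have hfin : (q:ℝ) * ((2:ℝ) ^ (2 * s + 2) + 2) ≤ m := by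
      have a1 : (2:ℝ) ^ (2 * s + 2) + 2 ≤ 6 * Real.exp (0.5545185 * L) := by
        rw [pow_add]
        linarith
      have a2 : Real.exp (-L) * Real.exp (0.5545185 * L) * Real.exp (0.4454815 * L) = 1 := by
        rw [← Real.exp_add, ← Real.exp_add]
        have : -L + 0.5545185 * L + 0.4454815 * L = 0 := by ring
        rw [this, Real.exp_zero]
      have hpos : 0 < Real.exp (-L) * Real.exp (0.5545185 * L) := by positivity
      calc (q:ℝ) * ((2:ℝ) ^ (2 * s + 2) + 2) ≤ q * (6 * Real.exp (0.5545185 * L)) :=
            mul_le_mul_of_nonneg_left a1 hq'.le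
        _ = 6 * (n * (Real.exp (-L) * Real.exp (0.5545185 * L))) := by rw [hqn]; ring
        _ ≤ 6 * ((m * L / 5) * (Real.exp (-L) * Real.exp (0.5545185 * L))) := by
            apply mul_le_mul_of_nonneg_left _ (by norm_num)
            apply mul_le_mul_of_nonneg_right _ hpos.le
            linarith
        _ = m / 5 * (6 * L) * (Real.exp (-L) * Real.exp (0.5545185 * L)) := by ring
        _ ≤ m / 5 * (5 * Real.exp (0.4454815 * L)) *
              (Real.exp (-L) * Real.exp (0.5545185 * L)) := by
            apply mul_le_mul_of_nonneg_right _ hpos.le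
            apply mul_le_mul_of_nonneg_left hkey (by positivity)
        _ = m * (Real.exp (-L) * Real.exp (0.5545185 * L) * Real.exp (0.4454815 * L)) := by ring
        _ = m := by rw [a2, mul_one]
    exact_mod_cast hfin

end Pool.Agent.Helper5.FS
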